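import Pool.Agent.H4.RD.Final

/-!
# A group of type `F` with property (RD) which is not polynomially contractible

The group is

  `Δ = ⟨x, τ, y, s | [y, x], [y, τxτ⁻¹], [s, τ], [s, x²y⁻¹], [s, yτx⁻¹τ⁻¹]⟩`.

It is obtained from the free group on `x, τ` by twice adding a stable letter which commutes with
a subgroup (first `P = ⟨x, τxτ⁻¹⟩`, then `H = ⟨τ, x²y⁻¹, yτx⁻¹τ⁻¹⟩`).  Such an extension of `Q` is
`FreeGroup (Q ⧸ H) ⋊ Q`, where `Q` permutes the basis, so it inherits rapid decay from `Q`
(Haagerup's inequality holds for free groups of arbitrary rank with the same constants).  Both `P`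
and `H` are free on the given generators, so the presentation complex is aspherical, and `H` is
exponentially distorted, which gives exponential lower bounds for fillings of the loops
`[s, τⁿxτ⁻ⁿ x²y⁻¹ τⁿx⁻¹τ⁻ⁿ]`.

In the statement, `K : Cx G` ranges over the combinatorial 2-complexes with a free action of `G`
that has finitely many orbits of cells.

* `∃ K, K.SC ∧ Injective K.bdry`: there is a simply connected such `K` with `H₂(K) = 0`.
  As `K` is 2-dimensional it is contractible, so that `K / G` is a finite 2-dimensional `BG` and
  `G` is of type `F`, hence of type `F_∞`.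
* The 2-skeleton `K` of any `EG` with finitely many orbits of cells satisfies `K.SC`.  If `G` were
  polynomially contractible in sense (R), then `K.PolyDehn` would hold (case `N = 1`: a closed
  edge path of length `n` has `Vol ≤ n` and `Diam ≤ n`, and a singular combinatorial disc with
  `k` faces mapped homeomorphically gives a homotopy with at most `k` face moves).  If `G` were
  polynomially contractible in sense (JR), then `K.PolyHom` would hold for the 2-skeleton `K` of
  the simplicial complex `EG` (case `N = 1`).  Both fail for every `K`.
-/

namespace Pool.Agent.Results.MP_62668b_al.RDExpFilling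

open Pool.Agent.H4.RD

theorem result : ∃ (G : Type) (_ : Group G), HasRD G ∧
    (∃ K : Cx G, K.SC ∧ Function.Injective K.bdry) ∧
    ∀ K : Cx G, K.SC → ¬ K.PolyDehn ∧ ¬ K.PolyHom :=
  ⟨Delta, inferInstance, Delta_RD, ⟨K0, K0_SC, K0_inj⟩, no_poly⟩

end Pool.Agent.Results.MP_62668b_al.RDExpFilling
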